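import Pool.Agent.Helper53.Comp.GoalsP
import Mathlib

/-!
# Packet P8: partial fractions
-/

namespace Mono

namespace Comp

open Finset

namespace P8

/-- Partial fractions. -/
lemma pf {ι : Type*} [DecidableEq ι] (J : Finset ι) (hJ : J.Nonempty) (v : ι → ℝ)
    (hv : Set.InjOn v J) (x : ℝ) (hx : ∀ j ∈ J, v j ≠ x) :
    ∑ a ∈ J, (∏ j ∈ J.erase a, 1 / (v j - v a)) * (v a - x)⁻¹ = ∏ j ∈ J, (v j - x)⁻¹ := by
  have h1 : ∑ a ∈ J, ∏ j ∈ J.erase a, ((v j - x) / (v j - v a)) = 1 := by
    have h := congrArg (Polynomial.eval x) (Lagrange.sum_basis (v := v) hv hJ)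
    rw [Polynomial.eval_finsetSum, Polynomial.eval_one] at h
    rw [← h]
    refine sum_congr rfl fun a ha => ?_
    rw [Lagrange.basis, Polynomial.eval_prod]
    refine prod_congr rfl fun j hj => ?_
    have hne : v a - v j ≠ 0 := by
      intro h0
      exact (mem_erase.1 hj).1 (hv (mem_erase.1 hj).2 ha (by linarith))
    have hne' : v j - v a ≠ 0 := by
      intro h0
      exact hne (by linarith)
    simp only [Lagrange.basisDivisor, Polynomial.eval_mul, Polynomial.eval_C,
      Polynomial.eval_sub, Polynomial.eval_X]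
    field_simp
    ring
  have h2 : ∏ j ∈ J, (v j - x)⁻¹ = (∏ j ∈ J, (v j - x)⁻¹) *
      ∑ a ∈ J, ∏ j ∈ J.erase a, ((v j - x) / (v j - v a)) := by rw [h1, mul_one]
  rw [h2, mul_sum]
  refine sum_congr rfl fun a ha => ?_
  rw [← mul_prod_erase J _ ha, mul_assoc, mul_comm]
  congr 1
  rw [← prod_mul_distrib]
  refine prod_congr rfl fun j hj => ?_
  have hne : v j - x ≠ 0 := sub_ne_zero.2 (hx j (mem_erase.1 hj).2)
  rw [div_eq_mul_inv (v j - x), ← mul_assoc, inv_mul_cancel₀ hne, one_mul, one_div]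

end P8

theorem partFrac : PartFrac := by
  classical
  intro n k blk N ρ K R ξ hsurj hN hρ hR hξ hne c₀ hc₀
  have hsel : ∀ c : Fin k → Fin n, c ∈ sel blk ↔ ∀ i, blk (c i) = i := by
    intro c
    simp [sel]
  -- grouping
  have key : ∑ c ∈ sel blk,
      (∏ j ∈ univ.filter (fun j => j ≠ c (blk j)), 1 / (ρ j - ρ (c (blk j)))) *
      (R (fun i => ρ (c i)) * ∏ i ∈ K, (ρ (c i) - ξ (fun i => ρ (c i)) i)⁻¹) =
      ∑ c' ∈ (sel blk).filter (fun c => ∀ i ∈ K, c i = c₀ i),
        ∑ c ∈ (sel blk).filter (fun c => (fun i => if i ∈ K then c₀ i else c i) = c'),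
          (∏ j ∈ univ.filter (fun j => j ≠ c (blk j)), 1 / (ρ j - ρ (c (blk j)))) *
          (R (fun i => ρ (c i)) * ∏ i ∈ K, (ρ (c i) - ξ (fun i => ρ (c i)) i)⁻¹) := by
    rw [sum_fiberwise_of_maps_to]
    intro c hc
    rw [mem_filter, hsel]
    refine ⟨fun i => ?_, fun i hi => ?_⟩
    · by_cases hi : i ∈ K
      · simp only [hi, if_true]
        exact (hsel c₀).1 hc₀ i
      · simp only [hi, if_false]
        exact (hsel c).1 hc i
    · simp only [hi, if_true]
  rw [key, mul_sum]
  refine sum_congr rfl fun c' hc' => ?_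
  obtain ⟨hc's, hc'K⟩ := mem_filter.1 hc'
  have hblk' := (hsel c').1 hc's
  -- the fibre
  set S : Fin k → Finset (Fin n) := fun i =>
    if i ∈ K then univ.filter (fun j => blk j = i) else {c' i} with hS
  have hfib : (sel blk).filter (fun c => (fun i => if i ∈ K then c₀ i else c i) = c') =
      Fintype.piFinset S := by
    ext c
    rw [mem_filter, hsel, Fintype.mem_piFinset]
    constructor
    · rintro ⟨h1, h2⟩ i
      by_cases hi : i ∈ K
      · simp only [hS, hi, if_true, mem_filter, mem_univ, true_and]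
        exact h1 i
      · have := congrFun h2 i
        simp only [hi, if_false] at this
        simp only [hS, hi, if_false, mem_singleton]
        exact this
    · intro h
      refine ⟨fun i => ?_, ?_⟩
      · have hi := h i
        by_cases hiK : i ∈ K
        · simpa only [hS, hiK, if_true, mem_filter, mem_univ, true_and] using hi
        · simp only [hS, hiK, if_false, mem_singleton] at hi
          rw [hi]
          exact hblk' i
      · funext i
        have hi := h i
        by_cases hiK : i ∈ K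
        · simp only [hiK, if_true]
          exact (hc'K i hiK).symm
        · simp only [hS, hiK, if_false, mem_singleton] at hi
          simp only [hiK, if_false]
          exact hi
  rw [hfib]
  set X : Fin k → ℝ := fun i => ξ (fun i => ρ (c' i)) i with hX
  set g : Fin k → Fin n → ℝ := fun i a =>
    if i ∈ K then (∏ j ∈ (univ.filter (fun j => blk j = i)).erase a, 1 / (ρ j - ρ a)) *
      (ρ a - X i)⁻¹ else 1 with hg
  have hterm : ∀ c ∈ Fintype.piFinset S,
      (∏ j ∈ univ.filter (fun j => j ≠ c (blk j)), 1 / (ρ j - ρ (c (blk j)))) *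
          (R (fun i => ρ (c i)) * ∏ i ∈ K, (ρ (c i) - ξ (fun i => ρ (c i)) i)⁻¹) =
      (R (fun i => ρ (c' i)) * ∏ j ∈ univ.filter (fun j => blk j ∉ K ∧ j ≠ c' (blk j)),
        1 / (ρ j - ρ (c' (blk j)))) * ∏ i, g i (c i) := by
    intro c hc
    have hc1 : ∀ i, blk (c i) = i := by
      have := hc
      rw [← hfib, mem_filter, hsel] at this
      exact this.1
    have hc2 : ∀ i, i ∉ K → c i = c' i := by
      intro i hi
      have := Fintype.mem_piFinset.1 hc i
      simpa only [hS, hi, if_false, mem_singleton] using this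
    have e1 : R (fun i => ρ (c i)) = R (fun i => ρ (c' i)) :=
      hR _ _ fun i hi => by rw [hc2 i hi]
    have e2 : ∀ i ∈ K, ξ (fun i => ρ (c i)) i = X i := fun i hi =>
      hξ _ _ (fun i hi => by rw [hc2 i hi]) i hi
    have e3 : ∏ i, g i (c i) = ∏ i ∈ K, ((∏ j ∈ (univ.filter (fun j => blk j = i)).erase (c i),
        1 / (ρ j - ρ (c i))) * (ρ (c i) - X i)⁻¹) := by
      rw [← prod_subset (subset_univ K)]
      · refine prod_congr rfl fun i hi => ?_
        simp only [hg, hi, if_true]
      · intro i _ hi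
        simp only [hg, hi, if_false]
    rw [e3, prod_mul_distrib]
    have e4 : ∏ i ∈ K, (ρ (c i) - ξ (fun i => ρ (c i)) i)⁻¹ = ∏ i ∈ K, (ρ (c i) - X i)⁻¹ :=
      prod_congr rfl fun i hi => by rw [e2 i hi]
    rw [e4, e1]
    have e5 : ∏ j ∈ univ.filter (fun j => j ≠ c (blk j)), 1 / (ρ j - ρ (c (blk j))) =
        (∏ j ∈ univ.filter (fun j => blk j ∉ K ∧ j ≠ c' (blk j)), 1 / (ρ j - ρ (c' (blk j)))) *
        ∏ i ∈ K, ∏ j ∈ (univ.filter (fun j => blk j = i)).erase (c i), 1 / (ρ j - ρ (c i)) := by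
      rw [← prod_filter_mul_prod_filter_not (univ.filter (fun j => j ≠ c (blk j)))
        (fun j => blk j ∉ K)]
      congr 1
      · have : (univ.filter (fun j => j ≠ c (blk j))).filter (fun j => blk j ∉ K) =
            univ.filter (fun j => blk j ∉ K ∧ j ≠ c' (blk j)) := by
          ext j
          simp only [mem_filter, mem_univ, true_and]
          constructor
          · rintro ⟨h1, h2⟩
            exact ⟨h2, by rwa [← hc2 _ h2]⟩
          · rintro ⟨h1, h2⟩
            exact ⟨by rwa [hc2 _ h1], h1⟩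
        rw [this]
        refine prod_congr rfl fun j hj => ?_
        rw [hc2 _ (mem_filter.1 hj).2.1]
      · rw [← prod_fiberwise_of_maps_to (s := (univ.filter (fun j => j ≠ c (blk j))).filter
          (fun j => ¬ blk j ∉ K)) (t := K) (g := blk)
          (fun j hj => by simpa using (mem_filter.1 hj).2)]
        refine prod_congr rfl fun i hi => ?_
        refine prod_congr ?_ fun j hj => ?_
        · ext j
          simp only [mem_filter, mem_univ, true_and, mem_erase, not_not]
          constructor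
          · rintro ⟨⟨h1, h2⟩, h3⟩
            exact ⟨by rwa [h3] at h1, h3⟩
          · rintro ⟨h1, h2⟩
            rw [h2]
            exact ⟨⟨h1, hi⟩, rfl⟩
        · rw [(mem_filter.1 (mem_of_mem_erase hj)).2]
    rw [e5]
    ring
  rw [sum_congr rfl hterm, ← mul_sum, ← prod_univ_sum]
  have hpf : ∏ i, ∑ a ∈ S i, g i a = ∏ i ∈ K, ∏ j ∈ univ.filter (fun j => blk j = i),
      (ρ j - X i)⁻¹ := by
    rw [← prod_subset (subset_univ K)]
    · refine prod_congr rfl fun i hi => ?_
      simp only [hS, hg, hi, if_true]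
      refine P8.pf _ ?_ ρ ?_ (X i) ?_
      · obtain ⟨j, hj⟩ := hsurj i
        exact ⟨j, by simp [hj]⟩
      · intro a ha b hb hab
        by_contra hne'
        have ha' : blk a = i := by simpa using ha
        have hb' : blk b = i := by simpa using hb
        exact hρ a b hne' (by rw [ha', hb']) hab
      · intro j hj
        have hj' : blk j = i := by simpa using hj
        have := hne c' hc's j (by rw [hj']; exact hi)
        rw [hj'] at this
        exact this
    · intro i _ hi
      simp only [hS, hg, hi, if_false, sum_singleton]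
  rw [hpf]
  -- the product over the blocks of `K`
  have hK : ∏ j ∈ univ.filter (fun j => blk j ∈ K),
        ((N j : ℝ) * (ρ j - ξ (fun i => ρ (c' i)) (blk j)))⁻¹ =
      (∏ j ∈ univ.filter (fun j => blk j ∈ K), (N j : ℝ)⁻¹) *
        ∏ i ∈ K, ∏ j ∈ univ.filter (fun j => blk j = i), (ρ j - X i)⁻¹ := by
    rw [← prod_fiberwise_of_maps_to (s := univ.filter (fun j => blk j ∈ K)) (t := K) (g := blk)
      (fun j hj => (mem_filter.1 hj).2) (fun j =>
        ((N j : ℝ) * (ρ j - ξ (fun i => ρ (c' i)) (blk j)))⁻¹),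
      ← prod_fiberwise_of_maps_to (s := univ.filter (fun j => blk j ∈ K)) (t := K) (g := blk)
      (fun j hj => (mem_filter.1 hj).2) (fun j => (N j : ℝ)⁻¹), ← prod_mul_distrib]
    refine prod_congr rfl fun i hi => ?_
    have hf : (univ.filter (fun j => blk j ∈ K)).filter (fun j => blk j = i) =
        univ.filter (fun j => blk j = i) := by
      ext j
      simp only [mem_filter, mem_univ, true_and]
      constructor
      · rintro ⟨_, h⟩
        exact h
      · intro h
        exact ⟨by rw [h]; exact hi, h⟩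
    rw [hf, ← prod_mul_distrib]
    refine prod_congr rfl fun j hj => ?_
    rw [(mem_filter.1 hj).2, mul_inv]
  rw [hK]
  -- the product over the other blocks
  have hK' : (∏ i ∈ Kᶜ, (N (c' i) : ℝ)⁻¹) *
      (∏ j ∈ univ.filter (fun j => blk j ∉ K ∧ j ≠ c' (blk j)),
        ((N j : ℝ) * (ρ j - ρ (c' (blk j))))⁻¹) =
      (∏ j ∈ univ.filter (fun j => ¬ blk j ∈ K), (N j : ℝ)⁻¹) *
        ∏ j ∈ univ.filter (fun j => blk j ∉ K ∧ j ≠ c' (blk j)), 1 / (ρ j - ρ (c' (blk j))) := by
    have h1 : ∏ j ∈ univ.filter (fun j => blk j ∉ K ∧ j ≠ c' (blk j)),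
        ((N j : ℝ) * (ρ j - ρ (c' (blk j))))⁻¹ =
        (∏ j ∈ univ.filter (fun j => blk j ∉ K ∧ j ≠ c' (blk j)), (N j : ℝ)⁻¹) *
        ∏ j ∈ univ.filter (fun j => blk j ∉ K ∧ j ≠ c' (blk j)), 1 / (ρ j - ρ (c' (blk j))) := by
      rw [← prod_mul_distrib]
      refine prod_congr rfl fun j _ => ?_
      rw [mul_inv, one_div]
    rw [h1, ← mul_assoc]
    congr 1
    have h2 : ∏ i ∈ Kᶜ, (N (c' i) : ℝ)⁻¹ =
        ∏ j ∈ univ.filter (fun j => blk j ∉ K ∧ j = c' (blk j)), (N j : ℝ)⁻¹ := by
      refine prod_nbij c' ?_ ?_ ?_ fun _ _ => rfl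
      · intro i hi
        rw [mem_filter, hblk' i]
        exact ⟨mem_univ _, mem_compl.1 hi, rfl⟩
      · intro a _ b _ hab
        have := congrArg blk hab
        rwa [hblk' a, hblk' b] at this
      · intro j hj
        have hj' := (mem_filter.1 (mem_coe.1 hj)).2
        exact ⟨blk j, mem_coe.2 (mem_compl.2 hj'.1), hj'.2.symm⟩
    rw [h2, ← prod_filter_mul_prod_filter_not (univ.filter (fun j => ¬ blk j ∈ K))
      (fun j => j = c' (blk j)), filter_filter, filter_filter]
  have hall : (∏ j, (N j : ℝ)⁻¹) = (∏ j ∈ univ.filter (fun j => blk j ∈ K), (N j : ℝ)⁻¹) *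
      ∏ j ∈ univ.filter (fun j => ¬ blk j ∈ K), (N j : ℝ)⁻¹ :=
    (prod_filter_mul_prod_filter_not univ (fun j => blk j ∈ K) _).symm
  rw [hall]
  have := hK'
  calc _ = R (fun i => ρ (c' i)) * ((∏ i ∈ Kᶜ, (N (c' i) : ℝ)⁻¹) *
      (∏ j ∈ univ.filter (fun j => blk j ∉ K ∧ j ≠ c' (blk j)),
        ((N j : ℝ) * (ρ j - ρ (c' (blk j))))⁻¹)) *
      ((∏ j ∈ univ.filter (fun j => blk j ∈ K), (N j : ℝ)⁻¹) *
        ∏ i ∈ K, ∏ j ∈ univ.filter (fun j => blk j = i), (ρ j - X i)⁻¹) := by ring
    _ = _ := by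
      rw [hK']
      ring

end Comp

end Mono
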